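import Pool.Agent.H85.TU.Targets

/-!
# The truth values of the expansion are Borel and invariant under isomorphisms
-/

set_option autoImplicit false

open Set Pool.Agent.H85.TU

namespace Pool.Agent.H18.TU

theorem pf_EXM (hMHO : T_MHO) (hHIS : T_HIS) : T_EXM := by
  classical
  intro C _ S
  refine ⟨?_, ?_⟩
  · refine measurable_pi_iff.2 fun i => measurable_pi_iff.2 fun v => ?_
    have h1 : Measurable fun x : Str bar (bD C) ℕ => x i v :=
      (measurable_pi_apply v).comp (measurable_pi_apply i)
    have h2 : Measurable fun x : Str bar (bD C) ℕ => (exp3 S x i v).2 := by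
      refine measurable_pi_iff.2 fun ψ => ?_
      obtain ⟨ψ, hψ⟩ := ψ
      cases ψ with
      | ex a φ =>
        refine measurable_to_bool ?_
        have h3 : (fun x : Str bar (bD C) ℕ => (exp3 S x i v).2 ⟨.ex a φ, hψ⟩) ⁻¹' {true} =
            ⋃ w : Fin 3 → ℕ, {x | (∀ j, w (oth a j) = v j) ∧ Holds x (.ex a φ) w} := by
          ext x
          simp only [exp3, mem_preimage, mem_singleton_iff, decide_eq_true_eq, mem_iUnion,
            mem_ofPred_eq]
        rw [h3]
        refine MeasurableSet.iUnion fun w => ?_
        exact (MeasurableSet.const _).inter (hMHO Unit bar (bD C) (Fin 3) (.ex a φ) w)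
      | label _ _ _ _ => exact measurable_const
      | equal _ _ => exact measurable_const
      | not _ => exact measurable_const
      | conj _ => exact measurable_const
      | atLeast _ _ _ => exact measurable_const
    exact h1.prodMk h2
  · rintro x x' ⟨g, hg⟩
    refine ⟨g, fun i v => ?_⟩
    refine Prod.ext (hg i v) (funext fun ψ => ?_)
    obtain ⟨ψ, hψ⟩ := ψ
    cases ψ with
    | ex a φ =>
      have h1 : (∃ w : Fin 3 → ℕ, (∀ j, w (oth a j) = (g ∘ v) j) ∧ Holds x' (.ex a φ) w) ↔
          ∃ w : Fin 3 → ℕ, (∀ j, w (oth a j) = v j) ∧ Holds x (.ex a φ) w := by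
        constructor
        · rintro ⟨w, hw, h⟩
          refine ⟨g.symm ∘ w, fun j => ?_, ?_⟩
          · show g.symm (w (oth a j)) = v j
            rw [hw j]
            exact g.symm_apply_apply _
          · refine (hHIS Unit bar (bD C) (Fin 3) (.ex a φ) x x' g hg (g.symm ∘ w)).1 ?_
            have h2 : (g : ℕ → ℕ) ∘ (g.symm ∘ w) = w := by
              funext j
              exact g.apply_symm_apply _
            rw [h2]
            exact h
        · rintro ⟨w, hw, h⟩
          refine ⟨g ∘ w, fun j => ?_, ?_⟩
          · show g (w (oth a j)) = g (v j)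
            rw [hw j]
          · exact (hHIS Unit bar (bD C) (Fin 3) (.ex a φ) x x' g hg w).2 h
      show decide (∃ w : Fin 3 → ℕ, (∀ j, w (oth a j) = (g ∘ v) j) ∧ Holds x' (.ex a φ) w) =
          decide (∃ w : Fin 3 → ℕ, (∀ j, w (oth a j) = v j) ∧ Holds x (.ex a φ) w)
      exact decide_eq_decide.2 h1
    | label _ _ _ _ => rfl
    | equal _ _ => rfl
    | not _ => rfl
    | conj _ => rfl
    | atLeast _ _ _ => rfl

end Pool.Agent.H18.TU
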