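import Pool.Agent.H85.TU.Targets

/-!
# The dichotomy for the sentences with two universal quantifiers
-/

set_option autoImplicit false

open Set Pool.Agent.H85.TU

namespace Pool.Agent.H18.TU

/-- the assignment of images is the image of the assignment -/
theorem comp_assign {m : ℕ} (p : ℕ → ℕ) (q : Fin m → ℕ) (a b : ℕ) :
    p ∘ assign q a b = assign (p ∘ q) (p a) (p b) := by
  funext i
  show p (assign q a b i) = assign (p ∘ q) (p a) (p b) i
  unfold assign
  by_cases h : i < m
  · rw [dif_pos h, dif_pos h]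
    rfl
  · rw [dif_neg h, dif_neg h]
    by_cases h1 : i = m
    · rw [if_pos h1, if_pos h1]
    · rw [if_neg h1, if_neg h1]

theorem pf_FRM (hMRK : T_MRK) (hPER : T_PER) (hMHO : T_MHO) (hBOR : T_BOR) : T_FRM := by
  classical
  intro ι _ ar D _ _ m φ hφ
  have hYm : MeasurableSet {z : Str ar D ℕ × (Fin m → ℕ) | ∀ a b, Holds z.1 φ (assign z.2 a b)} := by
    have h1 : {z : Str ar D ℕ × (Fin m → ℕ) | ∀ a b, Holds z.1 φ (assign z.2 a b)} =
        ⋂ a : ℕ, ⋂ b : ℕ, ⋃ q0 : Fin m → ℕ,
          {x : Str ar D ℕ | Holds x φ (assign q0 a b)} ×ˢ {q0} := by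
      ext z
      simp only [mem_ofPred_eq, mem_iInter, mem_iUnion, mem_prod, mem_singleton_iff]
      constructor
      · intro h a b
        exact ⟨z.2, h a b, rfl⟩
      · intro h a b
        obtain ⟨q0, h1, h2⟩ := h a b
        rw [h2]
        exact h1
    rw [h1]
    refine MeasurableSet.iInter fun a => MeasurableSet.iInter fun b => MeasurableSet.iUnion fun q0 => ?_
    exact (hMHO ι ar D ℕ φ (assign q0 a b)).prod (measurableSet_singleton q0)
  have hEq : Models2 m φ =
      Covered m {z : Str ar D ℕ × (Fin m → ℕ) | ∀ a b, Holds z.1 φ (assign z.2 a b)} := by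
    ext x
    constructor
    · rintro ⟨c, hc⟩
      refine ⟨c, fun a b => ⟨id, c, Function.injective_id, rfl, ⟨a, rfl⟩, ⟨b, rfl⟩, ?_⟩⟩
      exact hc
    · rintro ⟨c, hc⟩
      refine ⟨c, fun a b => ?_⟩
      obtain ⟨p, q, hp, hpq, ⟨a', ha⟩, ⟨b', hb⟩, hY⟩ := hc a b
      have h1 := hPER ι ar D ℕ φ hφ x p hp (assign q a' b') (hY a' b')
      rw [comp_assign, hpq, ha, hb] at h1
      exact h1
  rw [hEq]
  exact hMRK ι ar D m _ (hBOR _ _ hYm)

end Pool.Agent.H18.TU
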